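import Mathlib
import Pool.Agent.H590.PL.Stm

/-!
Part CA of helper590's project PL (MP_85210c_gt): joint continuity of `A`.
-/

set_option autoImplicit false

noncomputable section

open MeasureTheory Filter Topology Set
open scoped BigOperators ENNReal

namespace Pool.Agent.H921.PL

open H590PL

/-! ### one variable -/

theorem int_abs {f : ℝ → ℝ} (hf : IntegrableOn f (Ioi 0)) : Integrable (fun x : ℝ => f |x|) := by
  rw [← integrableOn_univ, ← @Iio_union_Ici _ _ (0 : ℝ), integrableOn_union,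
    integrableOn_Ici_iff_integrableOn_Ioi]
  constructor
  · rw [← (Measure.measurePreserving_neg (volume : Measure ℝ)).integrableOn_comp_preimage
      (Homeomorph.neg ℝ).measurableEmbedding]
    simp only [Function.comp_def, abs_neg, neg_preimage, neg_Iio, neg_zero]
    exact hf.congr_fun (fun x hx => by
      show f x = f |x|
      rw [abs_of_pos hx]) measurableSet_Ioi
  · exact hf.congr_fun (fun x hx => by
      show f x = f |x|
      rw [abs_of_pos hx]) measurableSet_Ioi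

def bd1 (p0 s : ℝ) : ℝ := 2 * (|s| ^ (p0 - 2) + 1) * Real.exp (1 - |s| ^ p0)

theorem bd1_nonneg (p0 s : ℝ) : 0 ≤ bd1 p0 s := by
  have h1 : 0 ≤ |s| ^ (p0 - 2) := Real.rpow_nonneg (abs_nonneg s) _
  have h2 := (Real.exp_pos (1 - |s| ^ p0)).le
  unfold bd1
  positivity

theorem bd1_int {p0 : ℝ} (hp : 1 < p0) : Integrable (bd1 p0) := by
  have h1 : IntegrableOn (fun x : ℝ => x ^ (p0 - 2) * Real.exp (-x ^ p0)) (Ioi 0) :=
    integrableOn_rpow_mul_exp_neg_rpow (by linarith) (by linarith)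
  have h2 : IntegrableOn (fun x : ℝ => x ^ (0 : ℝ) * Real.exp (-x ^ p0)) (Ioi 0) :=
    integrableOn_rpow_mul_exp_neg_rpow (by norm_num) (by linarith)
  have h3 := ((int_abs h1).add (int_abs h2)).const_mul (2 * Real.exp 1)
  refine h3.congr (ae_of_all _ fun x => ?_)
  show 2 * Real.exp 1 * (|x| ^ (p0 - 2) * Real.exp (-|x| ^ p0) +
    |x| ^ (0 : ℝ) * Real.exp (-|x| ^ p0)) = bd1 p0 x
  unfold bd1
  rw [Real.rpow_zero, sub_eq_add_neg 1 (|x| ^ p0), Real.exp_add]
  ring

theorem bd1_le {p0 q s : ℝ} (hp : 1 < p0) (hq : p0 ≤ q) (hq2 : q ≤ 2) :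
    q * |s| ^ (q - 2) * Real.exp (-|s| ^ q) ≤ bd1 p0 s := by
  have hs := abs_nonneg s
  have hA : 0 ≤ |s| ^ (p0 - 2) := Real.rpow_nonneg hs _
  have hB : 0 ≤ |s| ^ (q - 2) := Real.rpow_nonneg hs _
  have h1 : |s| ^ (q - 2) ≤ |s| ^ (p0 - 2) + 1 := by
    rcases le_or_gt 1 |s| with h | h
    · have : |s| ^ (q - 2) ≤ 1 := Real.rpow_le_one_of_one_le_of_nonpos h (by linarith)
      linarith
    · rcases hs.eq_or_lt with h0 | h0
      · rw [← h0]
        rcases eq_or_ne (q - 2) 0 with h2 | h2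
        · rw [h2, Real.rpow_zero]
          have : (0 : ℝ) ≤ 0 ^ (p0 - 2) := Real.rpow_nonneg le_rfl _
          linarith
        · rw [Real.zero_rpow h2]
          have : (0 : ℝ) ≤ 0 ^ (p0 - 2) := Real.rpow_nonneg le_rfl _
          linarith
      · have : |s| ^ (q - 2) ≤ |s| ^ (p0 - 2) :=
          Real.rpow_le_rpow_of_exponent_ge h0 h.le (by linarith)
        linarith
  have h2 : -|s| ^ q ≤ 1 - |s| ^ p0 := by
    rcases le_or_gt 1 |s| with h | h
    · have : |s| ^ p0 ≤ |s| ^ q := Real.rpow_le_rpow_of_exponent_le h hq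
      linarith
    · have h3 : |s| ^ p0 ≤ 1 := Real.rpow_le_one hs h.le (by linarith)
      have h4 : 0 ≤ |s| ^ q := Real.rpow_nonneg hs _
      linarith
  unfold bd1
  have h3 : q * |s| ^ (q - 2) ≤ 2 * (|s| ^ (p0 - 2) + 1) :=
    mul_le_mul hq2 h1 hB (by norm_num)
  exact mul_le_mul h3 (Real.exp_le_exp.2 h2) (Real.exp_pos _).le (by positivity)

/-! ### two variables -/

def bd2 (p0 : ℝ) (y : P2) : ℝ := bd1 p0 y.1 * bd1 p0 y.2

theorem bd2_int {p0 : ℝ} (hp : 1 < p0) : Integrable (bd2 p0) :=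
  (bd1_int hp).mul_prod (bd1_int hp)

variable {κ : Type} [Fintype κ]

def ga (i j : κ) (v : κ → P2) (k : κ) : ℝ := dt (v k) (v j) / dt (v i) (v j)
def gb (i j : κ) (v : κ → P2) (k : κ) : ℝ := dt (v i) (v k) / dt (v i) (v j)

/-- the integrand in the new coordinates -/
def gf (i j : κ) (q : ℝ) (v : κ → P2) (y : P2) : ℝ :=
  (q * |y.1| ^ (q - 2)) * (q * |y.2| ^ (q - 2)) *
    Real.exp (-(∑ k, |ga i j v k * y.1 + gb i j v k * y.2| ^ q))

theorem dt_self (v : P2) : dt v v = 0 := by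
  unfold dt
  ring

theorem sum_ge {i j : κ} {v : κ → P2} (h : dt (v i) (v j) ≠ 0) (q : ℝ) (y : P2) :
    |y.1| ^ q + |y.2| ^ q ≤ ∑ k, |ga i j v k * y.1 + gb i j v k * y.2| ^ q := by
  classical
  have hij : i ≠ j := by
    rintro rfl
    exact h (dt_self _)
  have h1 : ∑ k ∈ ({i, j} : Finset κ), |ga i j v k * y.1 + gb i j v k * y.2| ^ q ≤
      ∑ k, |ga i j v k * y.1 + gb i j v k * y.2| ^ q :=
    Finset.sum_le_sum_of_subset_of_nonneg (Finset.subset_univ _)
      fun k _ _ => Real.rpow_nonneg (abs_nonneg _) _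
  rw [Finset.sum_pair hij] at h1
  have e1 : ga i j v i * y.1 + gb i j v i * y.2 = y.1 := by
    unfold ga gb
    rw [div_self h, dt_self]
    ring
  have e2 : ga i j v j * y.1 + gb i j v j * y.2 = y.2 := by
    unfold ga gb
    rw [div_self h, dt_self]
    ring
  rw [e1, e2] at h1
  exact h1

theorem gf_nonneg (i j : κ) {q : ℝ} (hq : 0 ≤ q) (v : κ → P2) (y : P2) : 0 ≤ gf i j q v y := by
  have h1 : 0 ≤ |y.1| ^ (q - 2) := Real.rpow_nonneg (abs_nonneg _) _
  have h2 : 0 ≤ |y.2| ^ (q - 2) := Real.rpow_nonneg (abs_nonneg _) _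
  have h3 := (Real.exp_pos (-(∑ k, |ga i j v k * y.1 + gb i j v k * y.2| ^ q))).le
  unfold gf
  positivity

theorem gf_le {i j : κ} {v : κ → P2} (h : dt (v i) (v j) ≠ 0) {p0 q : ℝ} (hp : 1 < p0)
    (hq : p0 ≤ q) (hq2 : q ≤ 2) (y : P2) : gf i j q v y ≤ bd2 p0 y := by
  have hq0 : 0 ≤ q := by linarith
  have h1 : 0 ≤ |y.1| ^ (q - 2) := Real.rpow_nonneg (abs_nonneg _) _
  have h2 : 0 ≤ |y.2| ^ (q - 2) := Real.rpow_nonneg (abs_nonneg _) _
  calc gf i j q v y ≤ (q * |y.1| ^ (q - 2)) * (q * |y.2| ^ (q - 2)) *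
        Real.exp (-(|y.1| ^ q + |y.2| ^ q)) := by
        unfold gf
        refine mul_le_mul_of_nonneg_left ?_ (by positivity)
        exact Real.exp_le_exp.2 (neg_le_neg (sum_ge h q y))
    _ = (q * |y.1| ^ (q - 2) * Real.exp (-|y.1| ^ q)) *
        (q * |y.2| ^ (q - 2) * Real.exp (-|y.2| ^ q)) := by
        rw [neg_add, Real.exp_add]
        ring
    _ ≤ bd2 p0 y := mul_le_mul (bd1_le hp hq hq2) (bd1_le hp hq hq2) (by positivity)
        (bd1_nonneg _ _)

theorem gf_meas (i j : κ) (q : ℝ) (v : κ → P2) : Measurable (gf i j q v) := by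
  unfold gf
  fun_prop

theorem gf_int {i j : κ} {v : κ → P2} (h : dt (v i) (v j) ≠ 0) {q : ℝ} (hq : 1 < q)
    (hq2 : q ≤ 2) : Integrable (gf i j q v) := by
  refine (bd2_int hq).mono' (gf_meas i j q v).aestronglyMeasurable (ae_of_all _ fun y => ?_)
  rw [Real.norm_eq_abs, abs_of_nonneg (gf_nonneg i j (by linarith) v y)]
  exact gf_le h hq le_rfl hq2 y

/-! ### change of variables -/

/-- the linear map `x ↦ (v·x, w·x)` -/
def LL (v w : P2) : P2 →ₗ[ℝ] P2 :=
  Matrix.toLin (Module.Basis.finTwoProd ℝ) (Module.Basis.finTwoProd ℝ) !![v.1, v.2; w.1, w.2]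

theorem LL_apply (v w x : P2) : LL v w x = (ip v x, ip w x) := by
  unfold LL ip
  rw [Matrix.toLin_finTwoProd_apply]

theorem LL_det (v w : P2) : LinearMap.det (LL v w) = dt v w := by
  unfold LL dt
  rw [LinearMap.det_toLin, Matrix.det_fin_two_of]

theorem change {v w : P2} (h : dt v w ≠ 0) {f : P2 → ℝ} (hf : Integrable f) :
    Integrable (fun x => f (ip v x, ip w x)) ∧
      ∫ x, f (ip v x, ip w x) = |dt v w|⁻¹ * ∫ y, f y := by
  have hdet : LinearMap.det (LL v w) ≠ 0 := by rwa [LL_det]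
  have hmap := Measure.map_linearMap_addHaar_eq_smul_addHaar (volume : Measure P2) hdet
  have hcont : Continuous (LL v w) := LinearMap.continuous_of_finiteDimensional _
  have hmeas : Measurable (LL v w) := hcont.measurable
  have e : (fun x => f (ip v x, ip w x)) = f ∘ (LL v w) := by
    funext x
    show _ = f (LL v w x)
    rw [LL_apply]
  have hf' : Integrable f (Measure.map (LL v w) volume) := by
    rw [hmap]
    exact hf.smul_measure ENNReal.ofReal_ne_top
  constructor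
  · rw [e]
    exact hf'.comp_measurable hmeas
  · rw [e]
    have h1 : ∫ x, (f ∘ (LL v w)) x = ∫ y, f y ∂(Measure.map (LL v w) volume) :=
      (integral_map hmeas.aemeasurable hf'.aestronglyMeasurable).symm
    rw [h1, hmap, integral_smul_measure, LL_det, ENNReal.toReal_ofReal (abs_nonneg _), abs_inv,
      smul_eq_mul]

/-- the term `(i, j)` of the integrand of `A` -/
def tt (i j : κ) (q : ℝ) (v : κ → P2) (x : P2) : ℝ :=
  Real.exp (-(Ph q v one x)) * (dt (v i) (v j) ^ 2 * (q * one i * |ip (v i) x| ^ (q - 2)) *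
    (q * one j * |ip (v j) x| ^ (q - 2)))

theorem tt_eq {i j : κ} {v : κ → P2} (h : dt (v i) (v j) ≠ 0) (q : ℝ) (x : P2) :
    tt i j q v x = dt (v i) (v j) ^ 2 * gf i j q v (ip (v i) x, ip (v j) x) := by
  have h1 : ∀ k, ga i j v k * ip (v i) x + gb i j v k * ip (v j) x = ip (v k) x := by
    intro k
    unfold ga gb
    rw [div_mul_eq_mul_div, div_mul_eq_mul_div, ← add_div, div_eq_iff h]
    unfold dt ip
    ring
  unfold tt gf Ph
  simp only [h1]
  simp only [one, one_mul, mul_one]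
  ring

/-- the integral of the term `(i, j)` in the new coordinates -/
def HH (i j : κ) (q : ℝ) (v : κ → P2) : ℝ := ∫ y, gf i j q v y

theorem tt_int (i j : κ) (v : κ → P2) {q : ℝ} (hq : 1 < q) (hq2 : q ≤ 2) :
    Integrable (tt i j q v) ∧ ∫ x, tt i j q v x = |dt (v i) (v j)| * HH i j q v := by
  rcases eq_or_ne (dt (v i) (v j)) 0 with h | h
  · have e : tt i j q v = fun _ => 0 := by
      funext x
      unfold tt
      rw [h]
      ring
    rw [e, h]
    simp
  · obtain ⟨h1, h2⟩ := change h (gf_int h hq hq2)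
    have e : tt i j q v = fun x => dt (v i) (v j) ^ 2 * gf i j q v (ip (v i) x, ip (v j) x) :=
      funext (tt_eq h q)
    constructor
    · rw [e]
      exact h1.const_mul _
    · rw [e, integral_const_mul, h2]
      unfold HH
      have h3 : |dt (v i) (v j)| ≠ 0 := abs_ne_zero.2 h
      rw [← sq_abs (dt (v i) (v j))]
      field_simp

theorem AA_eq (v : κ → P2) {q : ℝ} (hq : 1 < q) (hq2 : q ≤ 2) :
    AA q v one = (1 / 2) * ∑ i, ∑ j, |dt (v i) (v j)| * HH i j q v := by
  unfold AA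
  have e : (fun x => Real.exp (-(Ph q v one x)) * DD q v one x) =
      fun x => (1 / 2) * ∑ i, ∑ j, tt i j q v x := by
    funext x
    unfold DD tt
    rw [← mul_assoc, mul_comm (Real.exp _) (1 / 2), mul_assoc, Finset.mul_sum]
    refine congrArg _ (Finset.sum_congr rfl fun i _ => ?_)
    rw [Finset.mul_sum]
  rw [e, integral_const_mul, integral_finsetSum _ fun i _ =>
    integrable_finsetSum _ fun j _ => (tt_int i j v hq hq2).1]
  refine congrArg _ (Finset.sum_congr rfl fun i _ => ?_)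
  rw [integral_finsetSum _ fun j _ => (tt_int i j v hq hq2).1]
  exact Finset.sum_congr rfl fun j _ => (tt_int i j v hq hq2).2

/-! ### continuity -/

omit [Fintype κ] in
theorem dt_cont (i j : κ) : Continuous (fun q : ℝ × (κ → P2) => dt (q.2 i) (q.2 j)) := by
  unfold dt
  fun_prop

theorem term_cont (i j : κ) {p0 : ℝ} (hp : 1 < p0) :
    ContinuousOn (fun q : ℝ × (κ → P2) => |dt (q.2 i) (q.2 j)| * HH i j q.1 q.2)
      (Icc p0 2 ×ˢ univ) := by
  rintro ⟨q0, v0⟩ ⟨⟨hq1, hq2⟩, -⟩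
  simp only at hq1 hq2
  rcases eq_or_ne (dt (v0 i) (v0 j)) 0 with h | h
  · -- the value is zero
    set C : ℝ := ∫ y, bd2 p0 y with hC
    have hb : ∀ q ∈ (Icc p0 2 ×ˢ univ : Set (ℝ × (κ → P2))),
        ‖|dt (q.2 i) (q.2 j)| * HH i j q.1 q.2‖ ≤ |dt (q.2 i) (q.2 j)| * C := by
      rintro ⟨q, v⟩ ⟨⟨ha, hb⟩, -⟩
      simp only at ha hb
      show ‖|dt (v i) (v j)| * HH i j q v‖ ≤ |dt (v i) (v j)| * C
      rcases eq_or_ne (dt (v i) (v j)) 0 with h' | h'
      · rw [h']
        simp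
      · have h1 : 0 ≤ HH i j q v := integral_nonneg fun y => gf_nonneg i j (by linarith) v y
        have h2 : HH i j q v ≤ C :=
          integral_mono (gf_int h' (by linarith) hb) (bd2_int hp) fun y => gf_le h' hp ha hb y
        rw [Real.norm_eq_abs, abs_of_nonneg (mul_nonneg (abs_nonneg _) h1)]
        exact mul_le_mul_of_nonneg_left h2 (abs_nonneg _)
    have hz : Tendsto (fun q : ℝ × (κ → P2) => |dt (q.2 i) (q.2 j)| * C)
        (𝓝[Icc p0 2 ×ˢ univ] (q0, v0)) (𝓝 0) := by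
      have h1 : Continuous (fun q : ℝ × (κ → P2) => |dt (q.2 i) (q.2 j)| * C) :=
        (dt_cont i j).abs.mul continuous_const
      have h2 := (h1.tendsto (q0, v0)).mono_left
        (nhdsWithin_le_nhds (s := (Icc p0 2 ×ˢ univ : Set (ℝ × (κ → P2)))))
      have h3 : |dt (v0 i) (v0 j)| * C = 0 := by rw [h, abs_zero, zero_mul]
      simpa only [h3] using h2
    show Tendsto _ _ (𝓝 (|dt (v0 i) (v0 j)| * HH i j q0 v0))
    rw [h, abs_zero, zero_mul]
    exact squeeze_zero_norm' (eventually_mem_nhdsWithin.mono hb) hz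
  · -- dominated convergence
    have hne : ∀ᶠ q in 𝓝 ((q0, v0) : ℝ × (κ → P2)), dt (q.2 i) (q.2 j) ≠ 0 :=
      (dt_cont i j).continuousAt.eventually_ne h
    refine ContinuousWithinAt.mul (dt_cont i j).abs.continuousWithinAt ?_
    show ContinuousWithinAt (fun q : ℝ × (κ → P2) => ∫ y, gf i j q.1 q.2 y) _ _
    refine continuousWithinAt_of_dominated (bound := bd2 p0) ?_ ?_ (bd2_int hp) ?_
    · exact Eventually.of_forall fun q => (gf_meas i j q.1 q.2).aestronglyMeasurable
    · filter_upwards [self_mem_nhdsWithin, nhdsWithin_le_nhds hne] with q hq hd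
      refine ae_of_all _ fun y => ?_
      rw [Real.norm_eq_abs, abs_of_nonneg (gf_nonneg i j (by linarith [hq.1.1]) q.2 y)]
      exact gf_le hd hp hq.1.1 hq.1.2 y
    · have hnz : ∀ᵐ y : P2, y.1 ≠ 0 ∧ y.2 ≠ 0 := by
        have h1 : ∀ᵐ s : ℝ, s ≠ 0 := by
          rw [ae_iff]
          simp
        have h2 : ∀ᵐ y : P2, y.1 ≠ 0 :=
          (Measure.quasiMeasurePreserving_fst (μ := (volume : Measure ℝ))
            (ν := (volume : Measure ℝ))).ae h1
        have h3 : ∀ᵐ y : P2, y.2 ≠ 0 :=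
          (Measure.quasiMeasurePreserving_snd (μ := (volume : Measure ℝ))
            (ν := (volume : Measure ℝ))).ae h1
        filter_upwards [h2, h3] with y h4 h5 using ⟨h4, h5⟩
      filter_upwards [hnz] with y hy
      refine ContinuousAt.continuousWithinAt ?_
      have hq0 : 0 < q0 := by linarith
      have c1 : ContinuousAt (fun q : ℝ × (κ → P2) => |y.1| ^ (q.1 - 2)) (q0, v0) :=
        ContinuousAt.rpow continuousAt_const (by fun_prop) (Or.inl (abs_ne_zero.2 hy.1))
      have c2 : ContinuousAt (fun q : ℝ × (κ → P2) => |y.2| ^ (q.1 - 2)) (q0, v0) :=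
        ContinuousAt.rpow continuousAt_const (by fun_prop) (Or.inl (abs_ne_zero.2 hy.2))
      have c3 : ∀ k, ContinuousAt (fun q : ℝ × (κ → P2) =>
          |ga i j q.2 k * y.1 + gb i j q.2 k * y.2| ^ q.1) (q0, v0) := by
        intro k
        refine ContinuousAt.rpow ?_ (by fun_prop) (Or.inr hq0)
        have ca : ContinuousAt (fun q : ℝ × (κ → P2) => ga i j q.2 k) (q0, v0) :=
          (dt_cont k j).continuousAt.div (dt_cont i j).continuousAt h
        have cb : ContinuousAt (fun q : ℝ × (κ → P2) => gb i j q.2 k) (q0, v0) :=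
          (dt_cont i k).continuousAt.div (dt_cont i j).continuousAt h
        exact ((ca.mul continuousAt_const).add (cb.mul continuousAt_const)).abs
      have c4 : ContinuousAt (fun q : ℝ × (κ → P2) =>
          Real.exp (-(∑ k, |ga i j q.2 k * y.1 + gb i j q.2 k * y.2| ^ q.1))) (q0, v0) :=
        (tendsto_finsetSum _ fun k _ => c3 k).neg.rexp
      show ContinuousAt (fun q : ℝ × (κ → P2) => (q.1 * |y.1| ^ (q.1 - 2)) *
        (q.1 * |y.2| ^ (q.1 - 2)) *
        Real.exp (-(∑ k, |ga i j q.2 k * y.1 + gb i j q.2 k * y.2| ^ q.1))) (q0, v0)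
      exact ((continuousAt_fst.mul c1).mul (continuousAt_fst.mul c2)).mul c4

theorem CA : S_CA := by
  intro κ _ p0 hp hp2
  have h1 : ContinuousOn (fun q : ℝ × (κ → P2) =>
      (1 / 2) * ∑ i, ∑ j, |dt (q.2 i) (q.2 j)| * HH i j q.1 q.2) (Icc p0 2 ×ˢ univ) :=
    continuousOn_const.mul (continuousOn_finsetSum _ fun i _ =>
      continuousOn_finsetSum _ fun j _ => term_cont i j hp)
  have h2 : ContinuousOn (fun q : ℝ × (κ → P2) => AA q.1 q.2 one) (Icc p0 2 ×ˢ univ) := by
    refine h1.congr ?_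
    rintro ⟨q, v⟩ ⟨⟨ha, hb⟩, -⟩
    exact AA_eq v (lt_of_lt_of_le hp ha) hb
  exact h2.mono (prod_mono_right (subset_univ _))

end Pool.Agent.H921.PL
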